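import Pool.Agent.N343.AS.Stm

/-!
# Project AS (helper343), part FIN (helper619): final assembly
-/

set_option autoImplicit false

open Filter Topology MeasureTheory Finset

namespace Pool.Agent.N619.AS

open Pool.Agent.N343.AS

theorem main (h1 : S_EXI) (h2 : S_CON) (h3 : S_CRA) (h4 : S_CRB) (h5 : S_SRR) (h6 : S_GEN)
    (h7 : S_NUL) (h8 : S_RES) (h9 : S_JGO) (h10 : S_RIG) (h11 : S_TRA) : S_MAIN := by
  obtain ⟨n, c, hH, hcr⟩ := h11
  obtain ⟨x, hx⟩ := h1 n c (fun N => Z (N + 1)) AA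
  have hMM : ∀ N, (N + 1) * 2 ^ (E (N + 1)) ≤ MM AA N := by
    intro N
    rcases N with _ | N
    · change AA 0 ≤ AA 0 + 1
      omega
    · change AA (N + 1) ≤ AA (N + 1) + 2 * AA N + 2 ^ (N + 1)
      exact (Nat.le_add_right _ _).trans (Nat.le_add_right _ _)
  have hE : StrictMono E := by
    apply strictMono_nat_of_lt_succ
    intro N
    change E N < 2 * E N + Q N + 3 * N + 12
    omega
  have key : ∀ p : ℝ × ℝ, p.1 ∈ PP → p ∈ ach x := by
    intro p hp
    apply h4 n c _ AA hH x hx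
    rw [hcr]
    exact h6 (MM AA) hMM p.1 hp p.2
  have hae : ∀ᵐ t : ℝ, t ∈ PP := by
    have : ∀ᵐ t : ℝ, ∀ i, ∃ᶠ N in atTop, Int.fract (t * 2 ^ (E N)) ∈ Set.Ioo (ul i) (ur i) :=
      ae_all_iff.2 fun i => h7 E hE (ul i) (ur i) (h9 i).1 (h9 i).2.1 (h9 i).2.2.1
    exact this
  have hres : PP ∈ residual ℝ := by
    have h : PP = ⋂ i, {t : ℝ | ∃ᶠ N in atTop, Int.fract (t * 2 ^ (E N)) ∈ Set.Ioo (ul i) (ur i)} := by
      ext t
      simp only [PP, Set.mem_iInter]
      exact Iff.rfl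
    rw [h, countable_iInter_mem]
    exact fun i => h8 E hE (ul i) (ur i) (h9 i).1 (h9 i).2.1 (h9 i).2.2.1
  refine ⟨x, (h2 n c _ AA hH x hx).1, (h2 n c _ AA hH x hx).2, h5 n c _ AA hH x hx, ?_, ?_, ?_⟩
  · intro hu
    have h : ((rr 0, (0 : ℝ)) : ℝ × ℝ) ∈ ach x := by rw [hu]; trivial
    exact h10 (MM AA) 0 ((hcr _).1 (h3 n c _ AA hH x hx _ h))
  · have h : ∀ᵐ p : ℝ × ℝ, p.1 ∈ PP := by
      rw [Measure.volume_eq_prod]
      exact Measure.quasiMeasurePreserving_fst.ae hae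
    refine measure_mono_null (fun p hp => ?_) h
    intro hp'
    exact hp (key p hp')
  · have h : (Prod.fst ⁻¹' PP : Set (ℝ × ℝ)) ∈ residual (ℝ × ℝ) := by
      have h0 : IsMeagre (PPᶜ : Set ℝ) := by
        unfold IsMeagre
        rw [compl_compl]
        exact hres
      have h1' : IsMeagre (Prod.fst ⁻¹' (PPᶜ : Set ℝ) : Set (ℝ × ℝ)) :=
        IsMeagre.preimage_of_isOpenMap continuous_fst isOpenMap_fst h0
      unfold IsMeagre at h1'
      rw [← Set.preimage_compl, compl_compl] at h1'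
      exact h1'
    unfold IsMeagre
    rw [compl_compl]
    exact mem_of_superset h (fun p hp => key p hp)

end Pool.Agent.N619.AS
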